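import Pool.Agent.Q226.ADA.Defs

/-!
# Adaptive reductions from parity: definitions

`G` is the type of the queries (for example the instances of a promise problem). The oracle is a
function `O : G → Bool`. `run` (`Pool/Agent/Q226/ADA/Defs.lean`) is the list of the answers, `par` and
`toggle` are defined in `Pool/Agent/Q226/SEN/Defs.lean`.
-/

set_option autoImplicit false

namespace Pool.Agent.Q226.ADG

open Finset Pool.Agent.Q226.SEN Pool.Agent.Q226.ADA
open scoped Classical

variable {G : Type} {N : ℕ}

/-- A randomised adaptive reduction with `k` queries and advantage `γ` from parity to a problem with
the set `Rt` of right oracles: for the random choice `ρ`, the input `x` and the list `l` of the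
answers given so far (the most recent one first), the next query is `query ρ l x`, and after `k`
answers the output is `output ρ l x`. For every right oracle and every input the output is the parity
of `x` with probability at least `1 / 2 + γ` over `ρ`. -/
def Computes (Rt : (G → Bool) → Prop) (k : ℕ) {R : Type} [Fintype R]
    (query : R → List Bool → (Fin N → Bool) → G)
    (output : R → List Bool → (Fin N → Bool) → Bool) (γ : ℝ) : Prop :=
  ∀ O, Rt O → ∀ x, (1 / 2 + γ) * Fintype.card R ≤
    ((univ.filter fun ρ => output ρ (run O (fun l => query ρ l x) k) x = par x).card : ℝ)

end Pool.Agent.Q226.ADG
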