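import Mathlib

/-!
# The gap version of the minimum weight vertex cover problem

An instance on the vertex set `V` is given by its bits, a function `g : Bits V B → Bool`: the bits
`adj u v`, the `B` binary digits of the weight of each vertex, and the `B` binary digits of the
threshold.
-/

set_option autoImplicit false

namespace Pool.Agent.Q226.ADG.VC

open Finset
open scoped Classical

/-- the positions of the bits of an instance: pairs of vertices, digits of the weights, digits of the
threshold -/
abbrev Bits (V : Type) (B : ℕ) : Type := (V × V) ⊕ ((V × Fin B) ⊕ Fin B)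

/-- the number with the binary digits `d` (`d 0` is the least significant digit) -/
noncomputable def num {B : ℕ} (d : Fin B → Bool) : ℝ :=
  ∑ j : Fin B, 2 ^ (j : ℕ) * if d j = true then 1 else 0

variable {V : Type} [Fintype V] {B : ℕ}

/-- two different vertices `u` and `v` are adjacent if the bit of `(u, v)` or that of `(v, u)` is `1` -/
def Adj (g : Bits V B → Bool) (u v : V) : Prop :=
  u ≠ v ∧ (g (Sum.inl (u, v)) = true ∨ g (Sum.inl (v, u)) = true)

/-- the weight of a vertex -/
noncomputable def weight (g : Bits V B → Bool) (v : V) : ℝ :=
  num fun j => g (Sum.inr (Sum.inl (v, j)))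

/-- the threshold -/
noncomputable def threshold (g : Bits V B → Bool) : ℝ := num fun j => g (Sum.inr (Sum.inr j))

/-- `K` is a vertex cover of the graph of `g` -/
def Covers (g : Bits V B → Bool) (K : Finset V) : Prop := ∀ u v, Adj g u v → u ∈ K ∨ v ∈ K

/-- all degrees are at most `Δ` -/
def DegreeLE (Δ : ℝ) (g : Bits V B → Bool) : Prop :=
  ∀ v, ((univ.filter fun u => Adj g v u).card : ℝ) ≤ Δ

/-- The oracle `O` is right for the ratio `c`: it answers `1` if some vertex cover has weight at most
the threshold, and `0` if every vertex cover has weight more than `c` times the threshold; its other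
answers are arbitrary. -/
def Right (c : ℝ) (O : (Bits V B → Bool) → Bool) : Prop :=
  ∀ g, ((∃ K, Covers g K ∧ ∑ v ∈ K, weight g v ≤ threshold g) → O g = true) ∧
    ((∀ K, Covers g K → c * threshold g < ∑ v ∈ K, weight g v) → O g = false)

end Pool.Agent.Q226.ADG.VC
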