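import Pool.Agent.Q226.ADG.Main
import Pool.Agent.Q226.ADG.VCDefs

set_option autoImplicit false
set_option linter.unusedSectionVars false

/-! Relative decrease of numbers. -/

namespace Pool.Agent.Q226.ADG

open Finset
open scoped Classical

/-- the relative decrease from `a` to `a'` -/
noncomputable def drop (a a' : ℝ) : ℝ := max 0 (a - a') / a

lemma drop_nonneg {a : ℝ} (ha : 0 ≤ a) (a' : ℝ) : 0 ≤ drop a a' :=
  div_nonneg (le_max_left _ _) ha

lemma drop_eq {a a' : ℝ} (h : a' ≤ a) : drop a a' = (a - a') / a := by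
  unfold drop
  rw [max_eq_right (by linarith)]

lemma drop_zero {a a' : ℝ} (h : a ≤ a') : drop a a' = 0 := by
  unfold drop
  rw [max_eq_left (by linarith), zero_div]

lemma mul_drop {a : ℝ} (ha : 0 ≤ a) {a' : ℝ} (ha' : 0 ≤ a') : drop a a' * a = max 0 (a - a') := by
  unfold drop
  rcases eq_or_lt_of_le ha with h | h
  · rw [← h, mul_zero, max_eq_left (by linarith)]
  · rw [div_mul_cancel₀ _ h.ne']

/-- from the sum of the decreases to the sum of the relative decreases -/
lemma sum_drop_le {ι : Type} (J : Finset ι) {a : ℝ} (a' : ι → ℝ) {b : ℝ} (ha : 0 ≤ a)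
    (hb : 0 ≤ b) (h : ∑ i ∈ J, max 0 (a - a' i) ≤ b * a) : ∑ i ∈ J, drop a (a' i) ≤ b := by
  unfold drop
  rcases eq_or_lt_of_le ha with h0 | h0
  · rw [← h0]
    simpa using hb
  · rw [← sum_div, div_le_iff₀ h0]
    exact h

section num

variable {B : ℕ}

open VC

lemma num_nonneg (d : Fin B → Bool) : 0 ≤ num d := by
  unfold num
  exact sum_nonneg fun j _ => by split_ifs <;> positivity

/-- the digits of a number -/
lemma sum_num_le {ι : Type} (J : Finset ι) (d : Fin B → Bool) (d' : ι → Fin B → Bool) (s : ℕ)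
    (h : ∀ j, d j = true → (J.filter fun i => d' i j = false).card ≤ s) :
    ∑ i ∈ J, max 0 (num d - num (d' i)) ≤ s * num d := by
  have h1 : ∀ i ∈ J, max 0 (num d - num (d' i)) ≤
      ∑ j : Fin B, 2 ^ (j : ℕ) * if d j = true ∧ d' i j = false then (1 : ℝ) else 0 := by
    intro i _
    refine max_le (sum_nonneg fun j _ => by split_ifs <;> positivity) ?_
    unfold num
    rw [← sum_sub_distrib]
    refine sum_le_sum fun j _ => ?_
    rw [← mul_sub]
    refine mul_le_mul_of_nonneg_left ?_ (by positivity)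
    cases d j <;> cases d' i j <;> simp
  refine (sum_le_sum h1).trans ?_
  rw [sum_comm]
  unfold num
  rw [mul_sum]
  refine sum_le_sum fun j _ => ?_
  rw [← mul_sum]
  have h2 : ∑ i ∈ J, (if d j = true ∧ d' i j = false then (1 : ℝ) else 0) ≤
      s * if d j = true then (1 : ℝ) else 0 := by
    by_cases hj : d j = true
    · rw [if_pos hj, mul_one]
      have h3 := h j hj
      rw [card_filter] at h3
      have h4 : ((∑ i ∈ J, if d' i j = false then 1 else 0 : ℕ) : ℝ) ≤ s := by exact_mod_cast h3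
      push_cast at h4
      refine le_trans (le_of_eq ?_) h4
      refine sum_congr rfl fun i _ => ?_
      simp [hj]
    · rw [if_neg hj, mul_zero]
      refine le_of_eq (sum_eq_zero fun i _ => ?_)
      simp [hj]
  have h5 : (0 : ℝ) ≤ 2 ^ (j : ℕ) := by positivity
  calc (2 : ℝ) ^ (j : ℕ) * ∑ i ∈ J, (if d j = true ∧ d' i j = false then (1 : ℝ) else 0)
      ≤ 2 ^ (j : ℕ) * (s * if d j = true then (1 : ℝ) else 0) :=
        mul_le_mul_of_nonneg_left h2 h5
    _ = _ := by ring

end num

section ratio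

/-- the clamp -/
noncomputable def clamp (u : ℝ) : ℝ := max 0 (min 1 u)

lemma clamp_nonneg (u : ℝ) : 0 ≤ clamp u := le_max_left _ _

lemma clamp_le_one (u : ℝ) : clamp u ≤ 1 := max_le zero_le_one (min_le_left _ _)

lemma clamp_mono {u v : ℝ} (h : u ≤ v) : clamp u ≤ clamp v :=
  max_le_max le_rfl (min_le_min le_rfl h)

lemma clamp_of_one_le {u : ℝ} (h : 1 ≤ u) : clamp u = 1 := by
  unfold clamp
  rw [min_eq_left h]
  simp

lemma clamp_of_nonpos {u : ℝ} (h : u ≤ 0) : clamp u = 0 := by
  unfold clamp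
  exact max_eq_left ((min_le_right _ _).trans h)

lemma clamp_sub_le (u v : ℝ) {b : ℝ} (hb : 0 ≤ b) (h : 0 < u → v < 1 → min u 1 - max v 0 ≤ b) :
    clamp u - clamp v ≤ b := by
  rcases le_or_gt u 0 with h1 | h1
  · rw [clamp_of_nonpos h1]
    linarith [clamp_nonneg v]
  · rcases le_or_gt 1 v with h2 | h2
    · rw [clamp_of_one_le h2]
      linarith [clamp_le_one u]
    · have h3 := h h1 h2
      have h4 : clamp u = min u 1 := by
        unfold clamp
        rw [min_comm, max_eq_right (le_min h1.le zero_le_one)]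
      have h5 : clamp v = max v 0 := by
        unfold clamp
        rw [min_eq_right h2.le, max_comm]
      rw [h4, h5]
      exact h3

/-- the answer probability for the value `a` and the threshold `t` -/
noncomputable def phi (c a t : ℝ) : ℝ := if a = 0 then 1 else clamp ((c * t - a) / ((c - 1) * t))

lemma phi_nonneg (c a t : ℝ) : 0 ≤ phi c a t := by
  unfold phi
  split_ifs
  · exact zero_le_one
  · exact clamp_nonneg _

lemma phi_le_one (c a t : ℝ) : phi c a t ≤ 1 := by
  unfold phi
  split_ifs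
  · exact le_rfl
  · exact clamp_le_one _

lemma phi_diff_le_one (c a t c' a' t' : ℝ) : |phi c a t - phi c' a' t'| ≤ 1 := by
  have h1 := phi_nonneg c a t
  have h2 := phi_le_one c a t
  have h3 := phi_nonneg c' a' t'
  have h4 := phi_le_one c' a' t'
  rw [abs_le]
  constructor <;> linarith

lemma phi_yes {c a t : ℝ} (hc : 1 < c) (ha : 0 ≤ a) (h : a ≤ t) : phi c a t = 1 := by
  unfold phi
  split_ifs with h0
  · rfl
  · have ha' : 0 < a := lt_of_le_of_ne ha (Ne.symm h0)
    have ht : 0 < t := by linarith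
    apply clamp_of_one_le
    rw [le_div_iff₀ (mul_pos (by linarith) ht)]
    linarith

lemma phi_no {c a t : ℝ} (hc : 1 < c) (ht : 0 ≤ t) (h : c * t < a) : phi c a t = 0 := by
  have ha : 0 < a := lt_of_le_of_lt (by positivity) h
  unfold phi
  rw [if_neg ha.ne']
  apply clamp_of_nonpos
  exact div_nonpos_of_nonpos_of_nonneg (by linarith) (mul_nonneg (by linarith) ht)

lemma phi_lip_left {c a a' t : ℝ} (hc : 1 < c) (ha' : 0 ≤ a') (h : a' ≤ a) (ht : 0 ≤ t) :
    |phi c a t - phi c a' t| ≤ c / (c - 1) * drop a a' := by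
  have hc0 : 0 < c - 1 := by linarith
  have hL : 1 ≤ c / (c - 1) := by
    rw [le_div_iff₀ hc0]
    linarith
  rcases eq_or_lt_of_le h with heq | hlt
  · rw [heq, sub_self, abs_zero]
    exact mul_nonneg (by linarith) (drop_nonneg (by linarith) _)
  have ha : 0 < a := by linarith
  rcases eq_or_lt_of_le ha' with h0 | h0
  · have e1 : drop a a' = 1 := by
      rw [drop_eq h, ← h0, sub_zero, div_self ha.ne']
    rw [e1, mul_one]
    exact (phi_diff_le_one _ _ _ _ _ _).trans hL
  rw [drop_eq h]
  have hnn : 0 ≤ c / (c - 1) * ((a - a') / a) :=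
    mul_nonneg (by linarith) (div_nonneg (by linarith) ha.le)
  unfold phi
  rw [if_neg ha.ne', if_neg h0.ne']
  rcases eq_or_lt_of_le ht with ht0 | ht0
  · rw [← ht0]
    simpa using hnn
  have hden : 0 < (c - 1) * t := mul_pos hc0 ht0
  have hmono : clamp ((c * t - a) / ((c - 1) * t)) ≤ clamp ((c * t - a') / ((c - 1) * t)) :=
    clamp_mono (div_le_div_of_nonneg_right (by linarith) hden.le)
  rw [abs_sub_comm, abs_of_nonneg (by linarith)]
  apply clamp_sub_le _ _ hnn
  intro h1 h2
  have h1' : a' < c * t := by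
    by_contra hcon
    push Not at hcon
    exact absurd h1 (not_lt.2 (div_nonpos_of_nonpos_of_nonneg (by linarith) hden.le))
  refine (sub_le_sub_right (min_le_left _ _) _).trans ?_
  rcases le_or_gt a (c * t) with h3 | h3
  · refine (sub_le_sub_left (le_max_left _ _) _).trans ?_
    rw [← sub_div]
    rw [div_mul_div_comm, div_le_div_iff₀ hden (mul_pos hc0 ha)]
    have e1 : 0 ≤ (c - 1) * (a - a') := mul_nonneg hc0.le (by linarith)
    nlinarith
  · refine (sub_le_sub_left (le_max_right _ _) _).trans ?_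
    rw [sub_zero, div_mul_div_comm, div_le_div_iff₀ hden (mul_pos hc0 ha)]
    have e1 : 0 ≤ (c - 1) * (a' * (a - c * t)) :=
      mul_nonneg hc0.le (mul_nonneg ha'  (by linarith))
    nlinarith

lemma phi_lip_right {c a t t' : ℝ} (hc : 1 < c) (ha : 0 ≤ a) (ht' : 0 ≤ t') (h : t' ≤ t) :
    |phi c a t - phi c a t'| ≤ c / (c - 1) * drop t t' := by
  have hc0 : 0 < c - 1 := by linarith
  have hL : 1 ≤ c / (c - 1) := by
    rw [le_div_iff₀ hc0]
    linarith
  rcases eq_or_lt_of_le h with heq | hlt
  · rw [heq, sub_self, abs_zero]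
    exact mul_nonneg (by linarith) (drop_nonneg (by linarith) _)
  have ht : 0 < t := by linarith
  rcases eq_or_lt_of_le ht' with h0 | h0
  · have e1 : drop t t' = 1 := by
      rw [drop_eq h, ← h0, sub_zero, div_self ht.ne']
    rw [e1, mul_one]
    exact (phi_diff_le_one _ _ _ _ _ _).trans hL
  rw [drop_eq h]
  have hnn : 0 ≤ c / (c - 1) * ((t - t') / t) :=
    mul_nonneg (by linarith) (div_nonneg (by linarith) ht.le)
  unfold phi
  split_ifs with ha0
  · simpa using hnn
  have ha' : 0 < a := lt_of_le_of_ne ha (Ne.symm ha0)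
  have hden : 0 < (c - 1) * t := mul_pos hc0 ht
  have hden' : 0 < (c - 1) * t' := mul_pos hc0 h0
  have e0 : ∀ u : ℝ, 0 < u → (c * u - a) / ((c - 1) * u) = (c - a / u) / (c - 1) := by
    intro u hu
    field_simp
  rw [e0 t ht, e0 t' h0]
  have hau : a / t ≤ a / t' := div_le_div_of_nonneg_left ha h0 h
  have hmono : clamp ((c - a / t') / (c - 1)) ≤ clamp ((c - a / t) / (c - 1)) :=
    clamp_mono (div_le_div_of_nonneg_right (by linarith) hc0.le)
  rw [abs_of_nonneg (by linarith)]
  apply clamp_sub_le _ _ hnn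
  intro h1 h2
  refine (sub_le_sub_right (min_le_left _ _) _).trans ?_
  have e1 : a / t = a / t' * (t' / t) := by
    field_simp
  have e2 : (t - t') / t = 1 - t' / t := by
    field_simp
  have e3 : 0 < t' / t := div_pos h0 ht
  have e4 : t' / t ≤ 1 := by
    rw [div_le_one ht]
    exact h
  obtain ⟨p, hp⟩ : ∃ p, p = a / t' := ⟨_, rfl⟩
  obtain ⟨r, hr⟩ : ∃ r, r = t' / t := ⟨_, rfl⟩
  rw [e1, e2, ← hp, ← hr]
  rw [← hr] at e3 e4
  have hp0 : 0 ≤ p := by rw [hp]; positivity
  rcases le_or_gt p c with h3 | h3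
  · refine (sub_le_sub_left (le_max_left _ _) _).trans ?_
    rw [← sub_div, div_mul_eq_mul_div]
    refine div_le_div_of_nonneg_right ?_ hc0.le
    nlinarith
  · refine (sub_le_sub_left (le_max_right _ _) _).trans ?_
    rw [sub_zero, div_mul_eq_mul_div]
    refine div_le_div_of_nonneg_right ?_ hc0.le
    nlinarith

/-- the Lipschitz estimate -/
theorem phi_lip {c a a' t t' : ℝ} (hc : 1 < c) (ha : 0 ≤ a) (ha' : 0 ≤ a') (ht : 0 ≤ t)
    (ht' : 0 ≤ t') :
    |phi c a t - phi c a' t'| ≤
      c / (c - 1) * ((drop a a' + drop t t') + (drop a' a + drop t' t)) := by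
  have hc0 : 0 < c - 1 := by linarith
  have hL : 0 ≤ c / (c - 1) := by positivity
  have h1 : |phi c a t - phi c a' t| ≤ c / (c - 1) * (drop a a' + drop a' a) := by
    rcases le_total a' a with h | h
    · rw [drop_zero h, add_zero]
      exact phi_lip_left hc ha' h ht
    · rw [drop_zero h, zero_add, abs_sub_comm]
      exact phi_lip_left hc ha h ht
  have h2 : |phi c a' t - phi c a' t'| ≤ c / (c - 1) * (drop t t' + drop t' t) := by
    rcases le_total t' t with h | h
    · rw [drop_zero h, add_zero]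
      exact phi_lip_right hc ha' ht' h
    · rw [drop_zero h, zero_add, abs_sub_comm]
      exact phi_lip_right hc ha' ht h
  have h3 := abs_sub_le (phi c a t) (phi c a' t) (phi c a' t')
  calc |phi c a t - phi c a' t'| ≤ _ := h3
    _ ≤ c / (c - 1) * (drop a a' + drop a' a) + c / (c - 1) * (drop t t' + drop t' t) :=
        add_le_add h1 h2
    _ = _ := by ring

end ratio

end Pool.Agent.Q226.ADG
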