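import Pool.Agent.Q226.ADA.Core
import Pool.Agent.Q226.ADG.Defs

set_option autoImplicit false
set_option linter.unusedSectionVars false

/-! The random oracle for a problem with a Lipschitz function. -/

namespace Pool.Agent.Q226.ADG

open Finset Pool.Agent.Q226.SEN Pool.Agent.Q226.ADA H568R2 Pool.Agent.Y601
open scoped Classical

section near

variable {G : Type} [Fintype G]

/-- the oracles which agree with `f` where `f` is `0` or `1` -/
def Near (f : G → ℝ) (O : G → Bool) : Prop := ∀ g, (f g = 1 → O g = true) ∧ (f g = 0 → O g = false)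

lemma near_of_pos {f : G → ℝ} {O : G → Bool} (hO : wt f O ≠ 0) : Near f O := by
  have h1 : ∀ g, (if O g = true then f g else 1 - f g) ≠ 0 := by
    intro g
    unfold wt at hO
    rw [prod_ne_zero_iff] at hO
    exact hO g (mem_univ g)
  intro g
  constructor
  · intro hy
    by_contra hc
    have h2 := h1 g
    rw [if_neg hc, hy] at h2
    simp at h2
  · intro hn
    by_contra hc
    have h2 := h1 g
    have h3 : O g = true := by simpa using hc
    rw [if_pos h3] at h2
    exact h2 hn

end near

section average

variable {N k : ℕ} {G : Type} [Fintype G] {R : Type} [Fintype R]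

/-- the probability of the output `1` for the coins `ρ` and the input `x` -/
noncomputable def pout (f : G → ℝ) (k : ℕ)
    (query : R → List Bool → (Fin N → Bool) → G)
    (output : R → List Bool → (Fin N → Bool) → Bool) (ρ : R) (x : Fin N → Bool) : ℝ :=
  prob f (fun l => query ρ l x) k (fun l => output ρ l x)

lemma pout_eq (f : G → ℝ)
    (query : R → List Bool → (Fin N → Bool) → G)
    (output : R → List Bool → (Fin N → Bool) → Bool) (ρ : R) (x : Fin N → Bool) :
    pout f k query output ρ x = ∑ O, wt f O *
      if output ρ (run O (fun l => query ρ l x) k) x = true then 1 else 0 := by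
  unfold pout prob
  exact (run_law f (fun l => query ρ l x) k (fun l => if output ρ l x = true then (1 : ℝ) else 0)
    (wt_sum f)).symm

/-- the mean over the oracles -/
lemma mean {f : G → ℝ} (hf0 : ∀ g, 0 ≤ f g) (hf1 : ∀ g, f g ≤ 1) {γ : ℝ}
    (query : R → List Bool → (Fin N → Bool) → G)
    (output : R → List Bool → (Fin N → Bool) → Bool)
    (hred : Computes (Near f) k query output γ) (x : Fin N → Bool) :
    (1 / 2 + γ) * Fintype.card R ≤
      ∑ ρ, if par x = true then pout f k query output ρ x
        else 1 - pout f k query output ρ x := by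
  have h1 : ∀ O : G → Bool, wt f O * ((1 / 2 + γ) * Fintype.card R) ≤
      wt f O * ∑ ρ, if output ρ (run O (fun l => query ρ l x) k) x = par x then (1 : ℝ) else 0 := by
    intro O
    rcases eq_or_ne (wt f O) 0 with h | h
    · rw [h, zero_mul, zero_mul]
    · refine mul_le_mul_of_nonneg_left ?_ (wt_nonneg hf0 hf1 O)
      have h2 := hred O (near_of_pos h) x
      rw [card_filter] at h2
      push_cast at h2
      exact h2
  have h2 := sum_le_sum fun O (_ : O ∈ univ) => h1 O
  rw [← sum_mul, wt_sum, one_mul] at h2
  refine h2.trans (le_of_eq ?_)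
  simp_rw [mul_sum]
  rw [sum_comm]
  refine sum_congr rfl fun ρ _ => ?_
  cases hp : par x
  · simp only [Bool.false_eq_true, if_false]
    rw [pout_eq]
    have e1 : ∀ O : G → Bool, wt f O *
        (if output ρ (run O (fun l => query ρ l x) k) x = false then (1 : ℝ) else 0) = wt f O -
        wt f O * (if output ρ (run O (fun l => query ρ l x) k) x = true then 1 else 0) := by
      intro O
      cases output ρ (run O (fun l => query ρ l x) k) x <;> simp
    rw [sum_congr rfl fun O _ => e1 O, sum_sub_distrib, wt_sum]
  · simp only [if_true]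
    rw [pout_eq]

/-- neighbouring inputs -/
theorem pair {f : G → ℝ} (hf0 : ∀ g, 0 ≤ f g) (hf1 : ∀ g, f g ≤ 1) {γ : ℝ}
    (query : R → List Bool → (Fin N → Bool) → G)
    (output : R → List Bool → (Fin N → Bool) → Bool)
    (hred : Computes (Near f) k query output γ) (x : Fin N → Bool) (i : Fin N) :
    2 * γ * Fintype.card R ≤ ∑ ρ, |pout f k query output ρ x -
      pout f k query output ρ (toggle i x)| := by
  have h1 := mean hf0 hf1 query output hred x
  have h2 := mean hf0 hf1 query output hred (toggle i x)
  rw [par_toggle] at h2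
  have h3 : ∀ ρ : R, (if par x = true then pout f k query output ρ x
        else 1 - pout f k query output ρ x) +
      (if (!par x) = true then pout f k query output ρ (toggle i x)
        else 1 - pout f k query output ρ (toggle i x)) ≤
      1 + |pout f k query output ρ x - pout f k query output ρ (toggle i x)| := by
    intro ρ
    have e1 := le_abs_self (pout f k query output ρ x -
      pout f k query output ρ (toggle i x))
    have e2 := neg_abs_le (pout f k query output ρ x -
      pout f k query output ρ (toggle i x))
    cases par x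
    · simp only [Bool.false_eq_true, if_false, Bool.not_false, if_true]
      linarith
    · simp only [if_true, Bool.not_true, Bool.false_eq_true, if_false]
      linarith
  have h4 := sum_le_sum fun ρ (_ : ρ ∈ univ) => h3 ρ
  rw [sum_add_distrib, sum_add_distrib, sum_const, card_univ, nsmul_eq_mul, mul_one] at h4
  linarith

end average

section cube

variable {N k : ℕ} {G : Type} [Fintype G]

/-- a measure `δ` of the lost part of an instance and a function `f` with values in `[0, 1]` which is
Lipschitz on the instances in `P` -/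
structure Lip (f : G → ℝ) (P : G → Prop) (δ : G → G → ℝ) (L : ℝ) : Prop where
  nonneg : ∀ g, 0 ≤ f g
  le_one : ∀ g, f g ≤ 1
  const : 1 ≤ L
  delta : ∀ g g', 0 ≤ δ g g'
  lip : ∀ g g', P g → P g' → |f g - f g'| ≤ L * (δ g g' + δ g' g)

/-- the subcube of a restriction, for fixed coins -/
theorem cube_bound {f : G → ℝ} {P : G → Prop} {δ : G → G → ℝ} {L : ℝ} (hf : Lip f P δ L)
    (J : Finset (Fin N)) (τ : Restr (Fin N)) (hJ : ∀ i ∈ J, τ i = none)
    (query : List Bool → (Fin N → Bool) → G) (output : List Bool → (Fin N → Bool) → Bool)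
    (hne : ∀ l x, l.length < k → P (query l x)) (s : ℕ)
    (hs1 : ∀ l y, l.length < k →
      ∑ i ∈ J, δ (query l (ov τ y)) (query l (toggle i (ov τ y))) ≤ s)
    (hs2 : ∀ l l' y, l.length < k → l' <:+ l → l' ≠ l →
      (J.filter fun i => ¬ (query l' (ov τ y) = query l (ov τ y) ↔
        query l' (toggle i (ov τ y)) = query l (toggle i (ov τ y)))).card ≤ s)
    (hs3 : ∀ l y, l.length = k →
      (J.filter fun i => output l (ov τ y) ≠ output l (toggle i (ov τ y))).card ≤ s) :
    ∑ y : Fin N → Bool, ∑ i ∈ J,
      |prob f (fun l => query l (ov τ y)) k (fun l => output l (ov τ y)) -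
        prob f (fun l => query l (toggle i (ov τ y))) k
          (fun l => output l (toggle i (ov τ y)))| ≤
      2 ^ N * (s * (2 * L * k + k * (k - 1) / 2 + 1)) := by
  have hsR : (0 : ℝ) ≤ s := Nat.cast_nonneg _
  have hL0 : 0 ≤ L := by linarith [hf.const]
  have h := charge (X := Fin N → Bool) hf.nonneg hf.le_one J
    (fun i y => toggle i y) toggle_toggle (fun y l => query l (ov τ y)) k
    (fun y l => output l (ov τ y)) (L := L) (s := s) hL0 δ
    (fun x x' l hl => hf.lip _ _ (hne _ _ hl) (hne _ _ hl)) hf.delta ?_ ?_ ?_
  · rw [Fintype.card_fun, Fintype.card_bool, Fintype.card_fin] at h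
    push_cast at h
    refine le_trans (le_of_eq ?_) h
    refine sum_congr rfl fun y _ => sum_congr rfl fun i hi => ?_
    rw [ov_toggle (hJ i hi)]
  · intro y l hl
    refine le_trans (le_of_eq ?_) (hs1 l y hl)
    refine sum_congr rfl fun i hi => ?_
    rw [ov_toggle (hJ i hi)]
  · intro y l hl
    have h1 := pat_sum J (fun l => query l (ov τ y)) (fun i l => query l (ov τ (toggle i y)))
      (s := s) l ?_
    · exact h1
    · intro l' h2 h3
      have h4 := hs2 l l' y hl h2 h3
      refine le_trans (Nat.cast_le.2 (card_le_card ?_)) (Nat.cast_le.2 h4)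
      intro i hi
      simp only [mem_filter] at hi ⊢
      rw [ov_toggle (hJ i hi.1)] at hi
      exact hi
  · intro y l hl
    have h4 := hs3 l y hl
    have h5 : (J.filter fun i => output l (ov τ y) ≠ output l (ov τ (toggle i y))) =
        J.filter fun i => output l (ov τ y) ≠ output l (toggle i (ov τ y)) := by
      refine filter_congr fun i hi => ?_
      rw [ov_toggle (hJ i hi)]
    rw [h5]
    exact_mod_cast h4

/-- Reductions of arbitrary complexity: few sensitive bits are impossible. -/
theorem few {f : G → ℝ} {P : G → Prop} {δ : G → G → ℝ} {L : ℝ} (hf : Lip f P δ L) {γ : ℝ}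
    {R : Type} [Fintype R] [Nonempty R] (query : R → List Bool → (Fin N → Bool) → G)
    (output : R → List Bool → (Fin N → Bool) → Bool)
    (hne : ∀ ρ l x, l.length < k → P (query ρ l x))
    (hred : Computes (Near f) k query output γ) (s : ℕ)
    (hs1 : ∀ ρ l x, l.length < k → ∑ i, δ (query ρ l x) (query ρ l (toggle i x)) ≤ s)
    (hs2 : ∀ ρ l l' x, l.length < k → l' <:+ l → l' ≠ l →
      (univ.filter fun i => ¬ (query ρ l' x = query ρ l x ↔
        query ρ l' (toggle i x) = query ρ l (toggle i x))).card ≤ s)
    (hs3 : ∀ ρ l x, l.length = k →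
      (univ.filter fun i => output ρ l x ≠ output ρ l (toggle i x)).card ≤ s) :
    2 * γ * N ≤ s * (2 * L * k + k * (k - 1) / 2 + 1) := by
  have hR : (0 : ℝ) < Fintype.card R := by exact_mod_cast Fintype.card_pos
  have h1 : ∀ ρ : R, ∑ x : Fin N → Bool, ∑ i : Fin N,
      |pout f k query output ρ x - pout f k query output ρ (toggle i x)| ≤
      2 ^ N * (s * (2 * L * k + k * (k - 1) / 2 + 1)) := by
    intro ρ
    exact cube_bound hf univ (fun _ => none) (fun _ _ => rfl) (query ρ) (output ρ) (hne ρ) s
      (fun l y => hs1 ρ l y) (fun l l' y => hs2 ρ l l' y) (fun l y => hs3 ρ l y)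
  have h2 : ∑ x : Fin N → Bool, ∑ i : Fin N, 2 * γ * Fintype.card R ≤
      ∑ ρ : R, ∑ x : Fin N → Bool, ∑ i : Fin N,
        |pout f k query output ρ x - pout f k query output ρ (toggle i x)| := by
    rw [sum_comm (s := (univ : Finset R))]
    refine sum_le_sum fun x _ => ?_
    rw [sum_comm (s := (univ : Finset R))]
    exact sum_le_sum fun i _ => pair hf.nonneg hf.le_one query output hred x i
  have h3 := h2.trans (sum_le_sum fun ρ _ => h1 ρ)
  rw [sum_const, sum_const, sum_const, card_univ, card_univ, card_univ, Fintype.card_fun,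
    Fintype.card_bool, Fintype.card_fin, nsmul_eq_mul, nsmul_eq_mul, nsmul_eq_mul] at h3
  push_cast at h3
  have h4 : (2 * γ * N) * (2 ^ N * Fintype.card R) ≤
      (s * (2 * L * k + k * (k - 1) / 2 + 1)) * (2 ^ N * Fintype.card R) := by
    linarith
  exact le_of_mul_le_mul_right h4 (by positivity)

end cube

end Pool.Agent.Q226.ADG
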