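import Pool.Agent.Q226.ADG.Drop

set_option autoImplicit false
set_option linter.unusedSectionVars false

/-! The minimum weight of a vertex cover. -/

namespace Pool.Agent.Q226.ADG.VC

open Finset Pool.Agent.Q226.ADG
open scoped Classical

variable {V : Type} [Fintype V] {B : ℕ}

lemma adj_symm {g : Bits V B → Bool} {u v : V} (h : Adj g u v) : Adj g v u :=
  ⟨h.1.symm, h.2.symm⟩

lemma weight_nonneg (g : Bits V B → Bool) (v : V) : 0 ≤ weight g v := num_nonneg _

lemma threshold_nonneg (g : Bits V B → Bool) : 0 ≤ threshold g := num_nonneg _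

lemma covers_univ (g : Bits V B → Bool) : Covers g univ := fun u _ _ => Or.inl (mem_univ u)

/-- the minimum weight of a vertex cover -/
noncomputable def opt (g : Bits V B → Bool) : ℝ :=
  (univ.filter fun K : Finset V => Covers g K).inf' ⟨univ, by simp [covers_univ]⟩
    fun K => ∑ v ∈ K, weight g v

lemma opt_le {g : Bits V B → Bool} {K : Finset V} (h : Covers g K) :
    opt g ≤ ∑ v ∈ K, weight g v :=
  inf'_le _ (mem_filter.2 ⟨mem_univ _, h⟩)

lemma exists_opt (g : Bits V B → Bool) : ∃ K, Covers g K ∧ opt g = ∑ v ∈ K, weight g v := by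
  obtain ⟨K, hK, h⟩ := exists_mem_eq_inf' (s := univ.filter fun K : Finset V => Covers g K)
    ⟨univ, by simp [covers_univ]⟩ fun K => ∑ v ∈ K, weight g v
  exact ⟨K, (mem_filter.1 hK).2, h⟩

lemma opt_nonneg (g : Bits V B → Bool) : 0 ≤ opt g := by
  obtain ⟨K, _, h⟩ := exists_opt g
  rw [h]
  exact sum_nonneg fun v _ => weight_nonneg g v

/-- the sum over the ordered edges of the smaller weight -/
noncomputable def mins (g : Bits V B → Bool) : ℝ :=
  ∑ u, ∑ v, if Adj g u v then min (weight g u) (weight g v) else 0

lemma mins_le {g : Bits V B → Bool} {Δ : ℝ} (hΔ : DegreeLE Δ g) : mins g ≤ 2 * Δ * opt g := by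
  obtain ⟨K, hK, h⟩ := exists_opt g
  rw [h]
  have h1 : mins g ≤ ∑ u, ∑ v, ((if Adj g u v ∧ u ∈ K then weight g u else 0) +
      if Adj g u v ∧ v ∈ K then weight g v else 0) := by
    unfold mins
    refine sum_le_sum fun u _ => sum_le_sum fun v _ => ?_
    by_cases ha : Adj g u v
    · rw [if_pos ha]
      have e1 : (0 : ℝ) ≤ if Adj g u v ∧ u ∈ K then weight g u else 0 := by
        split_ifs
        · exact weight_nonneg g u
        · exact le_rfl
      have e2 : (0 : ℝ) ≤ if Adj g u v ∧ v ∈ K then weight g v else 0 := by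
        split_ifs
        · exact weight_nonneg g v
        · exact le_rfl
      rcases hK u v ha with hu | hv
      · have : (if Adj g u v ∧ u ∈ K then weight g u else 0) = weight g u := if_pos ⟨ha, hu⟩
        rw [this]
        linarith [min_le_left (weight g u) (weight g v)]
      · have : (if Adj g u v ∧ v ∈ K then weight g v else 0) = weight g v := if_pos ⟨ha, hv⟩
        rw [this]
        linarith [min_le_right (weight g u) (weight g v)]
    · rw [if_neg ha, if_neg fun h => ha h.1, if_neg fun h => ha h.1, add_zero]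
  have h2 : ∑ u, ∑ v, (if Adj g u v ∧ u ∈ K then weight g u else 0) ≤
      Δ * ∑ v ∈ K, weight g v := by
    rw [mul_sum]
    have e1 : ∑ u ∈ K, Δ * weight g u = ∑ u, if u ∈ K then Δ * weight g u else 0 := by
      rw [sum_ite_mem, univ_inter]
    rw [e1]
    refine sum_le_sum fun u _ => ?_
    by_cases hu : u ∈ K
    · rw [if_pos hu]
      have e2 : ∑ v, (if Adj g u v ∧ u ∈ K then weight g u else 0) =
          ((univ.filter fun v => Adj g u v).card : ℝ) * weight g u := by
        rw [card_filter]
        push_cast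
        rw [sum_mul]
        refine sum_congr rfl fun v _ => ?_
        by_cases ha : Adj g u v <;> simp [ha, hu]
      rw [e2]
      exact mul_le_mul_of_nonneg_right (hΔ u) (weight_nonneg g u)
    · rw [if_neg hu]
      refine le_of_eq (sum_eq_zero fun v _ => ?_)
      simp [hu]
  have h3 : ∑ u, ∑ v, (if Adj g u v ∧ v ∈ K then weight g v else 0) =
      ∑ u, ∑ v, (if Adj g u v ∧ u ∈ K then weight g u else 0) := by
    rw [sum_comm]
    refine sum_congr rfl fun u _ => sum_congr rfl fun v _ => ?_
    by_cases ha : Adj g u v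
    · simp [ha, adj_symm ha]
    · have : ¬ Adj g v u := fun h => ha (adj_symm h)
      simp [ha, this]
  simp_rw [sum_add_distrib] at h1
  rw [h3] at h1
  linarith

/-- the weight of the neighbours -/
noncomputable def nbr (g : Bits V B → Bool) (v : V) : ℝ := ∑ u, if Adj g v u then weight g u else 0

/-- the weight, at most that of the neighbours -/
noncomputable def trunc (g : Bits V B → Bool) (v : V) : ℝ := min (weight g v) (nbr g v)

lemma nbr_nonneg (g : Bits V B → Bool) (v : V) : 0 ≤ nbr g v := by
  unfold nbr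
  exact sum_nonneg fun u _ => by
    split_ifs
    · exact weight_nonneg g u
    · exact le_rfl

lemma trunc_nonneg (g : Bits V B → Bool) (v : V) : 0 ≤ trunc g v :=
  le_min (weight_nonneg g v) (nbr_nonneg g v)

lemma sum_trunc_le (g : Bits V B → Bool) : ∑ v, trunc g v ≤ mins g := by
  unfold mins
  refine sum_le_sum fun v _ => ?_
  have hnn : ∀ u, 0 ≤ if Adj g v u then min (weight g v) (weight g u) else 0 := fun u => by
    split_ifs
    · exact le_min (weight_nonneg g v) (weight_nonneg g u)
    · exact le_rfl
  by_cases h : ∃ u, Adj g v u ∧ weight g v ≤ weight g u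
  · obtain ⟨u, hu, hw⟩ := h
    have h1 : (if Adj g v u then min (weight g v) (weight g u) else 0) ≤
        ∑ u, if Adj g v u then min (weight g v) (weight g u) else 0 :=
      single_le_sum (f := fun u => if Adj g v u then min (weight g v) (weight g u) else 0)
        (fun u _ => hnn u) (mem_univ u)
    rw [if_pos hu, min_eq_left hw] at h1
    exact (min_le_left _ _).trans h1
  · push Not at h
    refine (min_le_right _ _).trans (le_of_eq ?_)
    unfold nbr
    refine sum_congr rfl fun u _ => ?_
    by_cases hu : Adj g v u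
    · rw [if_pos hu, if_pos hu, min_eq_right (h u hu).le]
    · rw [if_neg hu, if_neg hu]

lemma sum_union_le' (w : V → ℝ) (hw : ∀ v, 0 ≤ w v) (S T : Finset V) :
    ∑ v ∈ S ∪ T, w v ≤ ∑ v ∈ S, w v + ∑ v ∈ T, w v := by
  rw [← sum_union_inter]
  exact le_add_of_nonneg_right (sum_nonneg fun v _ => hw v)

lemma sum_biUnion_le' (w : V → ℝ) (hw : ∀ v, 0 ≤ w v) (H : Finset V) (t : V → Finset V) :
    ∑ v ∈ H.biUnion t, w v ≤ ∑ x ∈ H, ∑ v ∈ t x, w v := by
  induction H using Finset.induction_on with
  | empty => simp
  | insert a H ha ih =>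
    rw [biUnion_insert, sum_insert ha]
    exact (sum_union_le' w hw _ _).trans (add_le_add le_rfl ih)

/-- the minimum weights of two instances -/
theorem opt_diff (g g' : Bits V B → Bool) :
    opt g ≤ opt g' + ((∑ u, ∑ v, if Adj g u v ∧ ¬ Adj g' u v then
      min (weight g u) (weight g v) else 0) + ∑ v, max 0 (trunc g v - weight g' v)) := by
  obtain ⟨K', hK', hopt⟩ := exists_opt g'
  obtain ⟨A, hA⟩ : ∃ A : Finset V, A = univ.filter fun u => ∃ v, (Adj g u v ∧ ¬ Adj g' u v) ∧
    weight g u ≤ weight g v := ⟨_, rfl⟩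
  obtain ⟨H, hH⟩ : ∃ H : Finset V, H = K'.filter fun v => nbr g v < weight g v := ⟨_, rfl⟩
  obtain ⟨K, hKd⟩ : ∃ K : Finset V, K = (K' \ H) ∪ A ∪
    H.biUnion fun v => univ.filter fun u => Adj g v u := ⟨_, rfl⟩
  have hcov : Covers g K := by
    have key : ∀ u v, Adj g u v → u ∈ K' → u ∈ K ∨ v ∈ K := by
      intro u v huv hu
      by_cases hh : u ∈ H
      · right
        rw [hKd]
        apply mem_union_right
        rw [mem_biUnion]
        exact ⟨u, hh, mem_filter.2 ⟨mem_univ _, huv⟩⟩
      · left
        rw [hKd]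
        exact mem_union_left _ (mem_union_left _ (mem_sdiff.2 ⟨hu, hh⟩))
    intro u v huv
    by_cases h' : Adj g' u v
    · rcases hK' u v h' with h1 | h1
      · exact key u v huv h1
      · exact (key v u (adj_symm huv) h1).symm
    · rcases le_total (weight g u) (weight g v) with h1 | h1
      · left
        rw [hKd, hA]
        refine mem_union_left _ (mem_union_right _ (mem_filter.2 ⟨mem_univ _, v, ⟨huv, h'⟩, h1⟩))
      · right
        rw [hKd, hA]
        refine mem_union_left _ (mem_union_right _ (mem_filter.2 ⟨mem_univ _, u,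
          ⟨adj_symm huv, fun h => h' (adj_symm h)⟩, h1⟩))
  have hw : ∀ v, 0 ≤ weight g v := weight_nonneg g
  have h1 : opt g ≤ (∑ v ∈ K' \ H, weight g v + ∑ v ∈ A, weight g v) + ∑ v ∈ H, nbr g v := by
    refine (opt_le hcov).trans ?_
    rw [hKd]
    refine (sum_union_le' _ hw _ _).trans (add_le_add (sum_union_le' _ hw _ _) ?_)
    refine (sum_biUnion_le' _ hw H _).trans (sum_le_sum fun v _ => ?_)
    unfold nbr
    rw [sum_filter]
  have h2 : ∑ v ∈ A, weight g v ≤ ∑ u, ∑ v, if Adj g u v ∧ ¬ Adj g' u v then
      min (weight g u) (weight g v) else 0 := by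
    have hnn : ∀ u v, 0 ≤ if Adj g u v ∧ ¬ Adj g' u v then
        min (weight g u) (weight g v) else 0 := fun u v => by
      split_ifs
      · exact le_min (hw u) (hw v)
      · exact le_rfl
    refine le_trans ?_ (sum_le_sum_of_subset_of_nonneg (subset_univ A)
      fun u _ _ => sum_nonneg fun v _ => hnn u v)
    refine sum_le_sum fun u hu => ?_
    rw [hA, mem_filter] at hu
    obtain ⟨_, v, huv, hle⟩ := hu
    refine le_trans ?_ (single_le_sum (f := fun v => if Adj g u v ∧ ¬ Adj g' u v then
      min (weight g u) (weight g v) else 0) (fun v _ => hnn u v) (mem_univ v))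
    rw [if_pos huv, min_eq_left hle]
  have h3 : ∑ v ∈ K' \ H, weight g v + ∑ v ∈ H, nbr g v = ∑ v ∈ K', trunc g v := by
    have hsub : H ⊆ K' := by
      rw [hH]
      exact filter_subset _ _
    rw [← sum_sdiff hsub]
    congr 1
    · refine sum_congr rfl fun v hv => ?_
      rw [mem_sdiff, hH, mem_filter] at hv
      unfold trunc
      rw [min_eq_left]
      by_contra hcon
      push Not at hcon
      exact hv.2 ⟨hv.1, hcon⟩
    · refine sum_congr rfl fun v hv => ?_
      rw [hH, mem_filter] at hv
      unfold trunc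
      rw [min_eq_right hv.2.le]
  have h4 : ∑ v ∈ K', trunc g v ≤ opt g' + ∑ v, max 0 (trunc g v - weight g' v) := by
    rw [hopt]
    have e1 : ∑ v ∈ K', max 0 (trunc g v - weight g' v) ≤ ∑ v, max 0 (trunc g v - weight g' v) :=
      sum_le_sum_of_subset_of_nonneg (subset_univ _) fun v _ _ => le_max_left _ _
    refine le_trans ?_ (add_le_add le_rfl e1)
    rw [← sum_add_distrib]
    refine sum_le_sum fun v _ => ?_
    linarith [le_max_right 0 (trunc g v - weight g' v)]
  linarith

/-- the sum of the decreases of the minimum weight -/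
theorem sum_opt_le {ι : Type} (J : Finset ι) (g : Bits V B → Bool) (g' : ι → Bits V B → Bool)
    (s : ℕ) {Δ : ℝ} (hΔ : DegreeLE Δ g)
    (h : ∀ e, g e = true → (J.filter fun i => g' i e = false).card ≤ s) :
    ∑ i ∈ J, max 0 (opt g - opt (g' i)) ≤ (s * (4 * Δ)) * opt g := by
  have hm := mins_le hΔ
  have hm0 : 0 ≤ mins g := by
    unfold mins
    exact sum_nonneg fun u _ => sum_nonneg fun v _ => by
      split_ifs
      · exact le_min (weight_nonneg g u) (weight_nonneg g v)
      · exact le_rfl
  have hs0 : (0 : ℝ) ≤ s := Nat.cast_nonneg _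
  -- the edges
  have h1 : ∑ i ∈ J, (∑ u, ∑ v, if Adj g u v ∧ ¬ Adj (g' i) u v then
      min (weight g u) (weight g v) else 0) ≤ s * mins g := by
    unfold mins
    rw [sum_comm, mul_sum]
    refine sum_le_sum fun u _ => ?_
    rw [sum_comm, mul_sum]
    refine sum_le_sum fun v _ => ?_
    have hw : 0 ≤ min (weight g u) (weight g v) := le_min (weight_nonneg g u) (weight_nonneg g v)
    by_cases ha : Adj g u v
    · rw [if_pos ha]
      have e1 : ∑ i ∈ J, (if Adj g u v ∧ ¬ Adj (g' i) u v then
          min (weight g u) (weight g v) else 0) =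
          ((J.filter fun i => ¬ Adj (g' i) u v).card : ℝ) * min (weight g u) (weight g v) := by
        rw [card_filter]
        push_cast
        rw [sum_mul]
        refine sum_congr rfl fun i _ => ?_
        by_cases hb : Adj (g' i) u v <;> simp [ha, hb]
      rw [e1]
      refine mul_le_mul_of_nonneg_right ?_ hw
      have e2 : (J.filter fun i => ¬ Adj (g' i) u v).card ≤ s := by
        rcases ha.2 with hb | hb
        · refine (card_le_card ?_).trans (h _ hb)
          intro i hi
          rw [mem_filter] at hi ⊢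
          refine ⟨hi.1, ?_⟩
          by_contra hc
          apply hi.2
          refine ⟨ha.1, Or.inl ?_⟩
          simpa using hc
        · refine (card_le_card ?_).trans (h _ hb)
          intro i hi
          rw [mem_filter] at hi ⊢
          refine ⟨hi.1, ?_⟩
          by_contra hc
          apply hi.2
          refine ⟨ha.1, Or.inr ?_⟩
          simpa using hc
      exact_mod_cast e2
    · rw [if_neg ha, mul_zero]
      refine le_of_eq (sum_eq_zero fun i _ => ?_)
      rw [if_neg fun h => ha h.1]
  -- the weights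
  have h2 : ∑ i ∈ J, ∑ v, max 0 (trunc g v - weight (g' i) v) ≤ s * mins g := by
    rw [sum_comm]
    refine le_trans ?_ (mul_le_mul_of_nonneg_left (sum_trunc_le g) hs0)
    rw [mul_sum]
    refine sum_le_sum fun v _ => ?_
    have e1 : ∑ i ∈ J, max 0 (weight g v - weight (g' i) v) ≤ s * weight g v :=
      sum_num_le J (fun j => g (Sum.inr (Sum.inl (v, j))))
        (fun i j => g' i (Sum.inr (Sum.inl (v, j)))) s fun j hj => h _ hj
    rcases eq_or_lt_of_le (weight_nonneg g v) with h0 | h0
    · have e2 : trunc g v = 0 :=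
        le_antisymm ((min_le_left _ _).trans h0.symm.le) (trunc_nonneg g v)
      rw [e2, mul_zero]
      refine le_of_eq (sum_eq_zero fun i _ => ?_)
      exact max_eq_left (by linarith [weight_nonneg (g' i) v])
    · have e2 : ∀ i, max 0 (trunc g v - weight (g' i) v) ≤
          trunc g v / weight g v * max 0 (weight g v - weight (g' i) v) := by
        intro i
        have e3 : 0 ≤ trunc g v / weight g v := div_nonneg (trunc_nonneg g v) h0.le
        refine max_le (mul_nonneg e3 (le_max_left _ _)) ?_
        refine le_trans ?_ (mul_le_mul_of_nonneg_left (le_max_right _ _) e3)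
        have e4 : trunc g v / weight g v ≤ 1 := by
          rw [div_le_one h0]
          exact min_le_left _ _
        have e5 : trunc g v / weight g v * weight g v = trunc g v := by field_simp
        have e6 : trunc g v / weight g v * weight (g' i) v ≤ 1 * weight (g' i) v :=
          mul_le_mul_of_nonneg_right e4 (weight_nonneg _ _)
        rw [mul_sub, e5]
        linarith
      refine (sum_le_sum fun i _ => e2 i).trans ?_
      rw [← mul_sum]
      have e3 : 0 ≤ trunc g v / weight g v := div_nonneg (trunc_nonneg g v) h0.le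
      refine (mul_le_mul_of_nonneg_left e1 e3).trans (le_of_eq ?_)
      field_simp
  have h3 : ∀ i ∈ J, max 0 (opt g - opt (g' i)) ≤
      (∑ u, ∑ v, if Adj g u v ∧ ¬ Adj (g' i) u v then
        min (weight g u) (weight g v) else 0) + ∑ v, max 0 (trunc g v - weight (g' i) v) := by
    intro i _
    refine max_le ?_ (by linarith [opt_diff g (g' i)])
    refine add_nonneg ?_ (sum_nonneg fun v _ => le_max_left _ _)
    exact sum_nonneg fun u _ => sum_nonneg fun v _ => by
      split_ifs
      · exact le_min (weight_nonneg g u) (weight_nonneg g v)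
      · exact le_rfl
  refine (sum_le_sum h3).trans ?_
  rw [sum_add_distrib]
  have h4 : (s : ℝ) * mins g ≤ s * (2 * Δ * opt g) := mul_le_mul_of_nonneg_left hm hs0
  linarith

/-- the lost part of an instance -/
noncomputable def lost (Δ : ℝ) (g g' : Bits V B → Bool) : ℝ :=
  (drop (opt g) (opt g') + drop (threshold g) (threshold g')) / (4 * Δ + 1)

/-- the answer probability -/
noncomputable def ans (c : ℝ) (g : Bits V B → Bool) : ℝ := phi c (opt g) (threshold g)

theorem lip (c Δ : ℝ) (hc : 1 < c) (hΔ : 0 ≤ Δ) :
    Lip (ans c : (Bits V B → Bool) → ℝ) (DegreeLE Δ) (lost Δ)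
      (c * (4 * Δ + 1) / (c - 1)) where
  nonneg g := phi_nonneg _ _ _
  le_one g := phi_le_one _ _ _
  const := by
    have hc0 : 0 < c - 1 := by linarith
    rw [le_div_iff₀ hc0]
    nlinarith
  delta g g' := div_nonneg (add_nonneg (drop_nonneg (opt_nonneg g) _)
    (drop_nonneg (threshold_nonneg g) _)) (by linarith)
  lip g g' _ _ := by
    refine (phi_lip hc (opt_nonneg g) (opt_nonneg g') (threshold_nonneg g)
      (threshold_nonneg g')).trans (le_of_eq ?_)
    unfold lost
    have h1 : 4 * Δ + 1 ≠ 0 := by positivity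
    have h2 : c - 1 ≠ 0 := by linarith
    field_simp

theorem charged (Δ : ℝ) (hΔ : 0 ≤ Δ) :
    Charged (T := Bits V B) (DegreeLE Δ) (lost Δ) := by
  intro ι J g g' s hg h
  unfold lost
  rw [← sum_div, div_le_iff₀ (by linarith), sum_add_distrib]
  have hs0 : (0 : ℝ) ≤ s := Nat.cast_nonneg _
  have h1 : ∑ i ∈ J, drop (opt g) (opt (g' i)) ≤ s * (4 * Δ) :=
    sum_drop_le J (fun i => opt (g' i)) (opt_nonneg g) (by positivity)
      (sum_opt_le J g g' s hg h)
  have h2 : ∑ i ∈ J, drop (threshold g) (threshold (g' i)) ≤ s :=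
    sum_drop_le J (fun i => threshold (g' i)) (threshold_nonneg g) hs0
      (sum_num_le J (fun j => g (Sum.inr (Sum.inr j))) (fun i j => g' i (Sum.inr (Sum.inr j))) s
        fun j hj => h _ hj)
  linarith

/-- the oracles near `ans` are right -/
theorem right_of_near {c : ℝ} (hc : 1 < c) {O : (Bits V B → Bool) → Bool}
    (hO : Near (ans c) O) : Right c O := by
  intro g
  constructor
  · rintro ⟨K, hK, hle⟩
    exact (hO g).1 (phi_yes hc (opt_nonneg g) ((opt_le hK).trans hle))
  · intro hno
    obtain ⟨K, hK, hopt⟩ := exists_opt g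
    refine (hO g).2 (phi_no hc (threshold_nonneg g) ?_)
    rw [hopt]
    exact hno K hK

end Pool.Agent.Q226.ADG.VC
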